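import Mathlib

set_option autoImplicit false

open Filter Topology Metric

namespace Pool.Agent.Results.MP_b969c4_an.MacLane

/-- The family `{F n : n ∈ ℕ}` is normal on `N`: every sequence taken from the family has a
subsequence converging uniformly on compact subsets of `N` to an analytic function or to `∞`. -/
def NormalOn (F : ℕ → ℂ → ℂ) (N : Set ℂ) : Prop :=
  ∀ s : ℕ → ℕ, ∃ φ : ℕ → ℕ, StrictMono φ ∧
    ((∃ g : ℂ → ℂ, AnalyticOnNhd ℂ g N ∧ ∀ K ⊆ N, IsCompact K →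
        TendstoUniformlyOn (fun k => F (s (φ k))) g atTop K) ∨
      ∀ K ⊆ N, IsCompact K → ∀ M : ℝ, ∀ᶠ k in atTop, ∀ z ∈ K, M ≤ ‖F (s (φ k)) z‖)

/-- The set `M(f)` of MacLane points of `f` in `G`. -/
def macLane (G : Set ℂ) (f : ℂ → ℂ) : Set ℂ :=
  {z | z ∈ G ∧ ∃ N : Set ℂ, IsOpen N ∧ z ∈ N ∧ N ⊆ G ∧ NormalOn (fun n => iteratedDeriv n f) N}

def G : Set ℂ := {z | 0 < z.im}

noncomputable def f (z : ℂ) : ℂ := (z - 1)⁻¹ + (z + 1)⁻¹

lemma G_open : IsOpen G := isOpen_lt continuous_const Complex.continuous_im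

lemma ne1 {z : ℂ} (hz : z ∈ G) : z - 1 ≠ 0 := fun h => by
  have := congrArg Complex.im h
  simp at this
  exact (ne_of_gt hz) this

lemma ne2 {z : ℂ} (hz : z ∈ G) : z + 1 ≠ 0 := fun h => by
  have := congrArg Complex.im h
  simp at this
  exact (ne_of_gt hz) this

lemma f_an : AnalyticOnNhd ℂ f G := fun _ hz =>
  ((analyticAt_id.sub analyticAt_const).inv (ne1 hz)).add
    ((analyticAt_id.add analyticAt_const).inv (ne2 hz))

lemma iter_an (n : ℕ) : AnalyticOnNhd ℂ (iteratedDeriv n f) G := by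
  rw [iteratedDeriv_eq_iterate]
  exact f_an.iterated_deriv n

lemma iter_f (n : ℕ) : ∀ z ∈ G, iteratedDeriv n f z =
    (-1) ^ n * n.factorial * ((z - 1)⁻¹ ^ (n + 1) + (z + 1)⁻¹ ^ (n + 1)) := by
  induction n with
  | zero => intro z _; simp [f]
  | succ n ih =>
    intro z hz
    rw [iteratedDeriv_succ]
    have h : iteratedDeriv n f =ᶠ[𝓝 z] fun z =>
        (-1) ^ n * n.factorial * ((z - 1)⁻¹ ^ (n + 1) + (z + 1)⁻¹ ^ (n + 1)) := by
      filter_upwards [G_open.mem_nhds hz] with w hw using ih w hw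
    rw [h.deriv_eq]
    have a1 := (((hasDerivAt_id z).sub_const 1).inv (ne1 hz)).pow (n + 1)
    have a2 := (((hasDerivAt_id z).add_const 1).inv (ne2 hz)).pow (n + 1)
    have a3 := ((a1.add a2).const_mul ((-1) ^ n * (n.factorial : ℂ))).deriv
    refine Eq.trans ?_ (a3.trans ?_)
    · rfl
    · simp only [Pi.inv_apply, id, Nat.factorial_succ, Nat.add_sub_cancel]
      push_cast
      rw [neg_div, neg_div, one_div, one_div, ← inv_pow, ← inv_pow]
      ring

lemma norm_iter (n : ℕ) (z : ℂ) (hz : z ∈ G) : ‖iteratedDeriv n f z‖ =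
    n.factorial * ‖(z - 1)⁻¹ ^ (n + 1) + (z + 1)⁻¹ ^ (n + 1)‖ := by
  rw [iter_f n z hz]
  simp

lemma lower (a b : ℂ) (n : ℕ) (h : ‖b‖ ≤ ‖a‖) :
    ‖a‖ ^ n * (‖a‖ - ‖b‖) ≤ ‖a ^ (n + 1) + b ^ (n + 1)‖ := by
  have h1 := norm_sub_le (a ^ (n + 1) + b ^ (n + 1)) (b ^ (n + 1))
  rw [add_sub_cancel_right, norm_pow, norm_pow, pow_succ ‖a‖, pow_succ ‖b‖] at h1
  have h2 : ‖b‖ ^ n ≤ ‖a‖ ^ n := by gcongr
  have := norm_nonneg b
  nlinarith

lemma normal_of (N : Set ℂ) (hN : N ⊆ G) (h : ∀ n : ℕ, ∀ z ∈ N, (n : ℝ) ≤ ‖iteratedDeriv n f z‖) :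
    NormalOn (fun n => iteratedDeriv n f) N := by
  intro s
  by_cases hs : Tendsto s atTop atTop
  · refine ⟨id, strictMono_id, Or.inr fun K hK _ M => ?_⟩
    filter_upwards [(tendsto_natCast_atTop_atTop.comp hs).eventually_ge_atTop M] with k hk z hz
    exact hk.trans (h _ z (hK hz))
  · have : ∃ m, ∃ᶠ k in atTop, s k = m := by
      by_contra hc
      push Not at hc
      apply hs
      rw [Filter.tendsto_atTop]
      intro b
      have := (Finset.range b).eventually_all.2 (fun m _ => hc m)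
      filter_upwards [this] with k hk
      by_contra hlt
      exact hk (s k) (Finset.mem_range.2 (not_le.1 hlt)) rfl
    obtain ⟨m, hm⟩ := this
    obtain ⟨φ, hφ, hφ2⟩ := extraction_of_frequently_atTop hm
    refine ⟨φ, hφ, Or.inl ⟨iteratedDeriv m f, (iter_an m).mono hN, fun K _ _ => ?_⟩⟩
    simp only [hφ2]
    intro u hu
    exact Eventually.of_forall fun _ x _ => refl_mem_uniformity hu

lemma big (a b : ℂ) (n : ℕ) (ha : ‖a‖ < 1 / 2) (ha0 : a ≠ 0) (hb : 1 ≤ ‖b‖) :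
    (n : ℝ) ≤ n.factorial * ‖a⁻¹ ^ (n + 1) + b⁻¹ ^ (n + 1)‖ := by
  have h1 : 2 ≤ ‖a⁻¹‖ := by
    rw [norm_inv, le_inv_comm₀ (by norm_num) (norm_pos_iff.2 ha0)]
    linarith
  have h2 : ‖b⁻¹‖ ≤ 1 := by rw [norm_inv]; exact inv_le_one_of_one_le₀ hb
  have h3 := lower a⁻¹ b⁻¹ n (by linarith)
  have h4 : 1 ≤ ‖a⁻¹‖ ^ n := one_le_pow₀ (by linarith)
  have h5 : (n : ℝ) ≤ n.factorial := by exact_mod_cast Nat.self_le_factorial n
  have h6 : 1 ≤ ‖a⁻¹ ^ (n + 1) + b⁻¹ ^ (n + 1)‖ := by nlinarith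
  have : (0:ℝ) ≤ n := Nat.cast_nonneg n
  nlinarith

lemma mem_right : (1 + Complex.I / 4) ∈ macLane G f := by
  have h0 : (1 + Complex.I / 4) ∈ G := by simp [G]
  refine ⟨h0, G ∩ ball 1 (1 / 2), G_open.inter isOpen_ball, ⟨h0, by
    simp [mem_ball, dist_eq_norm]; norm_num⟩, Set.inter_subset_left,
    normal_of _ Set.inter_subset_left fun n z hz => ?_⟩
  rw [norm_iter n z hz.1]
  have h1 : ‖z - 1‖ < 1 / 2 := by simpa [mem_ball, dist_eq_norm] using hz.2
  refine big _ _ n h1 (ne1 hz.1) ?_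
  have := norm_sub_le (z + 1) (z - 1)
  have e : z + 1 - (z - 1) = 2 := by ring
  rw [e] at this
  simp at this
  linarith

lemma mem_left : (-1 + Complex.I / 4) ∈ macLane G f := by
  have h0 : (-1 + Complex.I / 4) ∈ G := by simp [G]
  refine ⟨h0, G ∩ ball (-1) (1 / 2), G_open.inter isOpen_ball, ⟨h0, by
    simp [mem_ball, dist_eq_norm]; norm_num⟩, Set.inter_subset_left,
    normal_of _ Set.inter_subset_left fun n z hz => ?_⟩
  rw [norm_iter n z hz.1, add_comm ((z - 1)⁻¹ ^ (n + 1))]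
  have h1 : ‖z + 1‖ < 1 / 2 := by simpa [mem_ball, dist_eq_norm] using hz.2
  refine big _ _ n h1 (ne2 hz.1) ?_
  have := norm_sub_le (z + 1) (z - 1)
  have e : z + 1 - (z - 1) = 2 := by ring
  rw [e] at this
  simp at this
  linarith

lemma zero_at (n : ℕ) (j : ℤ) (t : ℝ) (hc : Real.cos t ≠ 0)
    (ht : (n + 1) * t = Real.pi * (n + 2 * j) / 2) :
    ((Real.tan t : ℂ) * Complex.I - 1)⁻¹ ^ (n + 1)
      + ((Real.tan t : ℂ) * Complex.I + 1)⁻¹ ^ (n + 1) = 0 := by
  have hc' : Complex.cos t ≠ 0 := by exact_mod_cast hc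
  have e1 : ((Real.tan t : ℂ) * Complex.I - 1)⁻¹ = -Complex.cos t * Complex.exp (t * Complex.I) := by
    apply inv_eq_of_mul_eq_one_right
    rw [Complex.exp_mul_I, Complex.ofReal_tan, Complex.tan_eq_sin_div_cos]
    field_simp
    linear_combination (Complex.cos_sq_add_sin_sq t) - Complex.sin t ^ 2 * Complex.I_sq
  have e2 : ((Real.tan t : ℂ) * Complex.I + 1)⁻¹ = Complex.cos t * Complex.exp (-t * Complex.I) := by
    apply inv_eq_of_mul_eq_one_right
    rw [Complex.exp_mul_I, Complex.ofReal_tan, Complex.tan_eq_sin_div_cos, Complex.cos_neg,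
      Complex.sin_neg]
    field_simp
    linear_combination (Complex.cos_sq_add_sin_sq t) - Complex.sin t ^ 2 * Complex.I_sq
  have ht' : ((n : ℂ) + 1) * t = Real.pi * (n + 2 * j) / 2 := by exact_mod_cast ht
  have e3 : Complex.exp (t * Complex.I) ^ (n + 1)
      = (-1) ^ n * Complex.exp (-t * Complex.I) ^ (n + 1) := by
    rw [← Complex.exp_nat_mul, ← Complex.exp_nat_mul, ← Complex.exp_pi_mul_I,
      ← Complex.exp_nat_mul, ← Complex.exp_add, Complex.exp_eq_exp_iff_exists_int]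
    refine ⟨j, ?_⟩
    push_cast
    linear_combination 2 * Complex.I * ht'
  rw [e1, e2, mul_pow, mul_pow, e3, neg_pow (Complex.cos t), pow_succ (-1 : ℂ)]
  have : ((-1 : ℂ) ^ n) * (-1) ^ n = 1 := by rw [← mul_pow]; simp
  linear_combination (-(Complex.cos t) ^ (n + 1) * Complex.exp (-t * Complex.I) ^ (n + 1)) * this

lemma not_mem (z : ℂ) (hz : z.re = 0) : z ∉ macLane G f := by
  rintro ⟨hG, N, hN, hzN, hNG, hnorm⟩
  obtain ⟨φ, hφ, ⟨g, -, hg⟩ | h⟩ := hnorm id
  · obtain ⟨ε, hε, hb⟩ := Metric.isOpen_iff.1 hN z hzN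
    set w : ℂ := z + (ε / 2 : ℝ) with hw
    have hwN : w ∈ N := hb (by
      rw [mem_ball, dist_eq_norm, hw, add_sub_cancel_left, Complex.norm_real,
        Real.norm_of_nonneg (by positivity)]
      linarith)
    have hwG := hNG hwN
    have h1 := ((hg {w} (by simpa using hwN) isCompact_singleton).tendsto_at rfl).norm
    have hlt : ‖(w + 1)⁻¹‖ < ‖(w - 1)⁻¹‖ := by
      rw [norm_inv, norm_inv]
      refine inv_strictAnti₀ (norm_pos_iff.2 (ne1 hwG)) ?_
      rw [← sq_lt_sq₀ (norm_nonneg _) (norm_nonneg _), Complex.sq_norm, Complex.sq_norm,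
        Complex.normSq_apply, Complex.normSq_apply]
      simp [hw, hz]
      nlinarith
    have ha : 0 < ‖(w - 1)⁻¹‖ := (norm_nonneg _).trans_lt hlt
    have h2 : Tendsto (fun n : ℕ => (n.factorial : ℝ) * ‖(w - 1)⁻¹‖ ^ n) atTop atTop := by
      have := FloorSemiring.tendsto_pow_div_factorial_atTop ‖(w - 1)⁻¹‖⁻¹
      have h3 : Tendsto (fun n : ℕ => ‖(w - 1)⁻¹‖⁻¹ ^ n / (n.factorial : ℝ)) atTop (𝓝[>] 0) :=
        tendsto_nhdsWithin_iff.2 ⟨this, Eventually.of_forall fun n => by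
          simp only [Set.mem_Ioi]; positivity⟩
      refine h3.inv_tendsto_nhdsGT_zero.congr fun n => ?_
      simp only [Pi.inv_apply, inv_div, inv_pow, div_inv_eq_mul]
    have h3 := (h2.atTop_mul_const (sub_pos.2 hlt)).comp hφ.tendsto_atTop
    refine not_tendsto_atTop_of_tendsto_nhds h1 (tendsto_atTop_mono (fun k => ?_) h3)
    simp only [Function.comp, id]
    rw [norm_iter _ _ hwG, mul_assoc]
    gcongr
    exact lower _ _ _ hlt.le
  · set t0 := Real.arctan z.im with ht0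
    have hcos : Real.cos t0 ≠ 0 := (Real.cos_arctan_pos _).ne'
    have hcont : ∀ t, Real.cos t ≠ 0 → ContinuousAt (fun t => (Real.tan t : ℂ) * Complex.I) t :=
      fun t ht => (Complex.continuous_ofReal.continuousAt.comp
        (Real.continuousAt_tan.2 ht)).mul continuousAt_const
    have hz0 : (Real.tan t0 : ℂ) * Complex.I = z := by
      rw [ht0, Real.tan_arctan]
      apply Complex.ext <;> simp [hz]
    have e1 : ∀ᶠ t in 𝓝 t0, Real.cos t ≠ 0 := Real.continuous_cos.continuousAt.eventually_ne hcos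
    have e2 : ∀ᶠ t in 𝓝 t0, (Real.tan t : ℂ) * Complex.I ∈ N :=
      (hcont t0 hcos).eventually_mem (by rw [hz0]; exact hN.mem_nhds hzN)
    obtain ⟨ε, hε, hb⟩ := nhds_basis_closedBall.mem_iff.mp (e1.and e2)
    have hK := h ((fun t => (Real.tan t : ℂ) * Complex.I) '' closedBall t0 ε)
      (by rintro _ ⟨t, ht, rfl⟩; exact (hb ht).2)
      ((isCompact_closedBall t0 ε).image_of_continuousOn
        fun t ht => (hcont t (hb ht).1).continuousWithinAt) 1
    obtain ⟨k, hk1, hk2⟩ := (hK.and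
      ((tendsto_natCast_atTop_atTop.comp hφ.tendsto_atTop).eventually_ge_atTop
        (Real.pi / ε))).exists
    simp only [Function.comp, id] at hk1 hk2
    set n := φ k
    set x : ℝ := (2 * (n + 1) * t0 / Real.pi - n) / 2 with hx
    set t : ℝ := Real.pi * (n + 2 * ⌊x⌋) / (2 * (n + 1)) with ht
    have hpi := Real.pi_pos
    have hn : (0:ℝ) < n + 1 := by positivity
    have htm : t ∈ closedBall t0 ε := by
      rw [mem_closedBall, Real.dist_eq]
      have a1 := Int.floor_le x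
      have a2 := Int.lt_floor_add_one x
      have a3 : t0 - t = Real.pi * (x - ⌊x⌋) / (n + 1) := by
        rw [ht, hx]; field_simp; ring
      rw [abs_sub_comm, a3, abs_of_nonneg (div_nonneg (mul_nonneg hpi.le (by linarith)) hn.le),
        div_le_iff₀ hn]
      rw [div_le_iff₀ hε] at hk2
      nlinarith
    have := hk1 _ ⟨t, htm, rfl⟩
    rw [norm_iter _ _ (hNG (hb htm).2), zero_at n ⌊x⌋ t (hb htm).1 (by rw [ht]; field_simp)] at this
    norm_num at this

theorem result : ∃ (G : Set ℂ) (f : ℂ → ℂ), IsOpen G ∧ IsConnected G ∧ IsSimplyConnected G ∧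
    AnalyticOnNhd ℂ f G ∧ (macLane G f).Nonempty ∧ ¬ IsPreconnected (macLane G f) ∧
    ¬ IsSimplyConnected (macLane G f) := by
  have hconv : Convex ℝ G := convex_halfSpace_im_gt 0
  have hne : G.Nonempty := ⟨Complex.I, by simp [G]⟩
  have hnp : ¬ IsPreconnected (macLane G f) := by
    intro h
    have := h.intermediate_value mem_left mem_right Complex.continuous_re.continuousOn
    obtain ⟨z, hz, h0⟩ := this (a := 0) (by simp)
    exact not_mem z h0 hz
  refine ⟨G, f, G_open, ⟨hne, hconv.isPreconnected⟩, ?_, f_an, ⟨_, mem_left⟩, hnp,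
    fun h => hnp h.isPathConnected.isConnected.isPreconnected⟩
  have := hconv.contractibleSpace hne
  exact (inferInstance : SimplyConnectedSpace G)

end Pool.Agent.Results.MP_b969c4_an.MacLane
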